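import Pool.Agent.H564R3.TS.Defs

/-!
The optimal choice of `w` in the bound for permanents and tours.
-/

set_option autoImplicit false

namespace Pool.Agent.H564R3.TS

open Finset

/-- the optimal choice of `w` -/
theorem num_perm (m K S T : ℕ) (hS : 1 ≤ S) (hT : 1 ≤ T)
    (h : ∀ w H : ℕ, 1 ≤ w → T ≤ 2 ^ H →
      4 ^ m ≤ K * (2 ^ H * 4 ^ (3 * w) * ((H + 1) * (m + 1) * S) ^ (m / w))) :
    (4 : ℝ) ^ m ≤ K * T *
      (2 : ℝ) ^ (5 * Real.sqrt (m * Real.logb 2 (2 * (m + 1) ^ 2 * S)) + 7) := by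
  have hK : 1 ≤ K := by
    by_contra hK
    have hK0 : K = 0 := by omega
    have h1 := h 1 T le_rfl (le_of_lt Nat.lt_two_pow_self)
    rw [hK0, zero_mul] at h1
    have : 0 < 4 ^ m := by positivity
    omega
  have hKr : (1 : ℝ) ≤ K := by exact_mod_cast hK
  have hTr : (1 : ℝ) ≤ T := by exact_mod_cast hT
  have hSr : (1 : ℝ) ≤ S := by exact_mod_cast hS
  by_cases hbig : 4 ^ m ≤ T
  · have h1 : (4 : ℝ) ^ m ≤ T := by exact_mod_cast hbig
    have h2 : (1 : ℝ) ≤ (2 : ℝ) ^ (5 * Real.sqrt (m * Real.logb 2 (2 * (m + 1) ^ 2 * S)) + 7) := by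
      apply Real.one_le_rpow (by norm_num)
      positivity
    have h3 : (T : ℝ) ≤ K * T := by nlinarith
    calc (4 : ℝ) ^ m ≤ K * T := le_trans h1 h3
      _ = K * T * 1 := by ring
      _ ≤ _ := by gcongr
  push Not at hbig
  have hm : 1 ≤ m := by
    by_contra hm
    have : m = 0 := by omega
    subst this
    simp at hbig
    omega
  have hmr : (1 : ℝ) ≤ m := by exact_mod_cast hm
  -- the block exponent
  set H := Nat.clog 2 T with hH
  have hH1 : T ≤ 2 ^ H := Nat.le_pow_clog (by norm_num) T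
  have hH2 : 2 ^ H ≤ 2 * T := by
    rcases Nat.eq_or_lt_of_le hT with h1 | h1
    · rw [hH, ← h1]
      simp
    · have h2 := Nat.pow_pred_clog_lt_self (b := 2) (by norm_num) h1
      rw [← hH] at h2
      have h3 : 0 < H := Nat.clog_pos (by norm_num) h1
      obtain ⟨k, hk⟩ : ∃ k, H = k + 1 := ⟨H - 1, by omega⟩
      rw [hk] at h2 ⊢
      simp only [Nat.pred_succ, Nat.add_sub_cancel, Nat.pred_eq_sub_one] at h2
      rw [pow_succ]
      omega
  have hH3 : H ≤ 2 * m := by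
    refine Nat.clog_le_of_le_pow ?_
    rw [pow_mul]
    exact le_of_lt hbig
  set Q : ℝ := 2 * ((m : ℝ) + 1) ^ 2 * S with hQ
  have hQ8 : (8 : ℝ) ≤ Q := by
    rw [hQ]
    nlinarith [sq_nonneg ((m : ℝ) + 1)]
  have hQpos : 0 < Q := by linarith
  set L : ℝ := Real.logb 2 Q with hL
  have hL1 : 1 ≤ L := by
    rw [hL, Real.le_logb_iff_rpow_le (by norm_num) hQpos, Real.rpow_one]
    linarith
  have h2L : (2 : ℝ) ^ L = Q := Real.rpow_logb (by norm_num) (by norm_num) hQpos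
  have hmL : 0 < (m : ℝ) * L := by positivity
  set s : ℝ := Real.sqrt (m * L / 6) with hs
  have hspos : 0 < s := Real.sqrt_pos.2 (by positivity)
  have hs2 : s ^ 2 = m * L / 6 := Real.sq_sqrt (by positivity)
  set w : ℕ := ⌈s⌉₊ with hw
  have hw1 : 1 ≤ w := Nat.one_le_iff_ne_zero.2 (by
    have := Nat.ceil_pos.2 hspos
    omega)
  have hws : s ≤ w := Nat.le_ceil s
  have hws2 : (w : ℝ) ≤ s + 1 := le_of_lt (Nat.ceil_lt_add_one hspos.le)
  have h0 := h w H hw1 hH1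
  have h0r : (4 : ℝ) ^ m ≤ K * (2 ^ H * 4 ^ (3 * w) * (((H : ℝ) + 1) * (m + 1) * S) ^ (m / w)) := by
    exact_mod_cast h0
  have e1 : (2 : ℝ) ^ H ≤ 2 * T := by exact_mod_cast hH2
  have e2 : (4 : ℝ) ^ (3 * w) ≤ (2 : ℝ) ^ (6 * s + 6) := by
    have : (4 : ℝ) ^ (3 * w) = (2 : ℝ) ^ ((6 * w : ℕ) : ℝ) := by
      rw [Real.rpow_natCast, show (4 : ℝ) = 2 ^ 2 by norm_num, ← pow_mul]
      congr 1
      ring
    rw [this]
    apply Real.rpow_le_rpow_of_exponent_le (by norm_num)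
    push_cast
    linarith
  have e3 : (((H : ℝ) + 1) * (m + 1) * S) ^ (m / w) ≤ (2 : ℝ) ^ (6 * s) := by
    have h1 : ((H : ℝ) + 1) * (m + 1) * S ≤ Q := by
      rw [hQ]
      have h2 : (H : ℝ) + 1 ≤ 2 * (m + 1) := by
        have : (H : ℝ) ≤ 2 * m := by exact_mod_cast hH3
        linarith
      calc ((H : ℝ) + 1) * (m + 1) * S ≤ (2 * (m + 1)) * (m + 1) * S := by gcongr
        _ = 2 * ((m : ℝ) + 1) ^ 2 * S := by ring
    have h2 : (((H : ℝ) + 1) * (m + 1) * S) ^ (m / w) ≤ Q ^ (m / w) :=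
      pow_le_pow_left₀ (by positivity) h1 _
    refine le_trans h2 ?_
    rw [← h2L, ← Real.rpow_natCast, ← Real.rpow_mul (by norm_num)]
    apply Real.rpow_le_rpow_of_exponent_le (by norm_num)
    have h3 : ((m / w : ℕ) : ℝ) ≤ m / s := by
      refine le_trans Nat.cast_div_le ?_
      exact div_le_div_of_nonneg_left (by positivity) hspos hws
    calc L * ((m / w : ℕ) : ℝ) ≤ L * (m / s) := by gcongr
      _ = 6 * s := by
        rw [mul_div_assoc', div_eq_iff hspos.ne']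
        have : 6 * s * s = 6 * s ^ 2 := by ring
        rw [this, hs2]
        ring
  have e4 : 12 * s ≤ 5 * Real.sqrt (m * L) := by
    have h1 : Real.sqrt (m * L) ^ 2 = m * L := Real.sq_sqrt hmL.le
    have h2 : 0 ≤ Real.sqrt (m * L) := Real.sqrt_nonneg _
    by_contra h3
    push Not at h3
    nlinarith
  calc (4 : ℝ) ^ m ≤ K * (2 ^ H * 4 ^ (3 * w) * (((H : ℝ) + 1) * (m + 1) * S) ^ (m / w)) := h0r
    _ ≤ K * ((2 * T) * (2 : ℝ) ^ (6 * s + 6) * (2 : ℝ) ^ (6 * s)) := by gcongr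
    _ = K * T * (2 : ℝ) ^ (12 * s + 7) := by
      have : (2 : ℝ) ^ (12 * s + 7) = 2 * (2 : ℝ) ^ (6 * s + 6) * (2 : ℝ) ^ (6 * s) := by
        rw [mul_assoc, ← Real.rpow_add (by norm_num)]
        nth_rewrite 2 [← Real.rpow_one (2 : ℝ)]
        rw [← Real.rpow_add (by norm_num)]
        congr 1
        ring
      rw [this]
      ring
    _ ≤ _ := by
      gcongr
      · norm_num

end Pool.Agent.H564R3.TS
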