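import Pool.Agent.H564R3.TS.Count
import Pool.Agent.H564R3.TS.HistP

/-! The general time-space trade-off. -/

set_option autoImplicit false

namespace Pool.Agent.H564R3.TS

open Finset
open Pool.Agent.H564R3.PW (Instr runs exec syms)

/-- A program whose output contains the monomials of the exact covers `F` of `E` by `m` sets, and
no monomial which does not cover `E`, needs time at least about `#F * θ ^ m / c m`. -/
theorem main {R X E ρ : Type} [Zero R] [Fintype X] [DecidableEq X] [Fintype E] [DecidableEq E]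
    [Fintype ρ] [DecidableEq ρ] (sup : X → Finset E) (r : ℕ) (hr : 1 ≤ r)
    (F : Finset (Finset X)) (hF : ∀ A ∈ F, Exact sup r univ A)
    (p : List (Instr R X ρ)) (o : ρ) (hT : Cov sup (syms p o)) (hmem : ∀ A ∈ F, ind A ∈ syms p o)
    (c : ℕ → ℕ) (hc : ∀ (P : Finset E) (s : ℕ) (G : Finset (Finset X)), P.card = r * s →
      (∀ B ∈ G, Exact sup r P B) → G.card ≤ c s)
    (θ L : ℕ) (hθ : 1 ≤ θ) (hL : 1 ≤ L) (m : ℕ) (hm : Fintype.card E = r * m)
    (hcc : ∀ x s, 2 * x ≤ s → s ≤ m → c x * c (s - x) * θ ^ x ≤ L * c s)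
    (w H : ℕ) (hw : 1 ≤ w) (hH : p.length ≤ 2 ^ H) :
    F.card * θ ^ m ≤
      2 ^ H * θ ^ (3 * w) * ((H + 1) * L * Fintype.card ρ) ^ (m / w) * c m := by
  obtain ⟨z, hz, hu⟩ := hist hr p o hT F hF hmem (2 ^ H) hH
  exact count sup r hr F hF z H o hz hu c hc θ L hθ hL m hm hcc w hw

end Pool.Agent.H564R3.TS
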