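import Pool.Agent.H564R3.TS.Defs

/-! Task J (helper379): real analysis for set cover. -/

set_option autoImplicit false

namespace Pool.Agent.H564R3.TS

open Finset
open Pool.Agent.H564R3.PW (Instr runs exec syms)
open scoped NNReal

theorem J_ev (A B c : ℝ) (hB : 0 < B) (hc : 0 < c) :
    ∃ n₀ : ℕ, ∀ n : ℕ, n₀ ≤ n → A + B * Real.log (2 * n + 1) ≤ c * n := by
  have h1 := Real.isLittleO_log_id_atTop.bound (show 0 < c / (6 * B) by positivity)
  have h2 : Filter.Tendsto (fun n : ℕ => 2 * (n : ℝ) + 1) Filter.atTop Filter.atTop := by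
    refine Filter.tendsto_atTop_add_const_right _ _ ?_
    exact Filter.Tendsto.const_mul_atTop (by norm_num) tendsto_natCast_atTop_atTop
  have h3 := h2.eventually h1
  obtain ⟨n1, hn1⟩ := Filter.eventually_atTop.1 h3
  obtain ⟨n2, hn2⟩ := exists_nat_ge (2 * A / c)
  refine ⟨max (max n1 n2) 1, fun n hn => ?_⟩
  have h4 := hn1 n ((le_max_left _ _).trans ((le_max_left _ _).trans hn))
  have h5 : (n2 : ℝ) ≤ n := by exact_mod_cast (le_max_right _ _).trans ((le_max_left _ _).trans hn)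
  have h6 : (1 : ℝ) ≤ n := by exact_mod_cast (le_max_right _ _).trans hn
  simp only [id] at h4
  rw [Real.norm_of_nonneg (by positivity : (0 : ℝ) ≤ 2 * n + 1)] at h4
  have h7 : Real.log (2 * n + 1) ≤ c / (6 * B) * (3 * n) := by
    refine (Real.le_norm_self _).trans (h4.trans ?_)
    refine mul_le_mul_of_nonneg_left (by linarith) (by positivity)
  have h8 : B * Real.log (2 * n + 1) ≤ c * n / 2 := by
    calc B * Real.log (2 * n + 1) ≤ B * (c / (6 * B) * (3 * n)) := mul_le_mul_of_nonneg_left h7 hB.le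
      _ = c * n / 2 := by field_simp; ring
  have h9 : A ≤ c * n / 2 := by
    have h10 : 2 * A / c ≤ n := hn2.trans h5
    rw [div_le_iff₀ hc] at h10
    linarith
  linarith

/-- set cover: small space needs time almost `4 ^ n` -/
theorem num_set (ε : ℝ) (hε : 0 < ε) (hε' : ε < 4) :
    ∃ (r : ℕ) (δ : ℝ) (n₀ : ℕ), 1 ≤ r ∧ 0 < δ ∧ ∀ n m S T : ℕ, n₀ ≤ n → n = r * m → 1 ≤ S → 1 ≤ T →
      (S : ℝ) ≤ 2 ^ (δ * n) →
      (∀ w H : ℕ, 1 ≤ w → T ≤ 2 ^ H → (4 ^ (r - 1)) ^ m ≤
        2 ^ H * (4 ^ (r - 1)) ^ (3 * w) * ((H + 1) * (r * m + 1) * S) ^ (m / w)) →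
      (4 - ε) ^ n ≤ T := by
  have hl4 : 0 < Real.log 4 := Real.log_pos (by norm_num)
  have hl2 : 0 < Real.log 2 := Real.log_pos (by norm_num)
  set L : ℝ := Real.log 4 - Real.log (4 - ε) with hL
  have hLpos : 0 < L := by
    rw [hL, sub_pos]
    exact Real.log_lt_log (by linarith) (by linarith)
  obtain ⟨r0, hr0⟩ := exists_nat_ge (4 * Real.log 4 / L)
  set r : ℕ := r0 + 1 with hr
  have hr1 : (1 : ℝ) ≤ r := by rw [hr]; push_cast; linarith [Nat.cast_nonneg (α := ℝ) r0]
  have hrpos : (0 : ℝ) < r := by linarith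
  have hrL : Real.log 4 ≤ L / 4 * r := by
    have h1 : 4 * Real.log 4 / L ≤ r := by rw [hr]; push_cast; linarith
    rw [div_le_iff₀ hLpos] at h1
    linarith
  set η : ℝ := L / (12 * r * Real.log 4) with hη
  have hηpos : 0 < η := by positivity
  set K : ℝ := 12 * Real.log 4 / L with hK
  have hKpos : 0 < K := by positivity
  set δ : ℝ := L / (4 * K * Real.log 2) with hδ
  have hδpos : 0 < δ := by positivity
  obtain ⟨n0, hn0⟩ := J_ev (Real.log 2 + 3 * r * Real.log 4) (2 * K) (L / 4) (by positivity)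
    (by positivity)
  refine ⟨r, δ, max n0 1, by omega, hδpos, ?_⟩
  intro n m S T hn hnm hS hT hSδ h
  have hev := hn0 n ((le_max_left _ _).trans hn)
  have hn1 : 1 ≤ n := (le_max_right _ _).trans hn
  have hnpos : (0 : ℝ) < n := by exact_mod_cast hn1
  have hTpos : (0 : ℝ) < T := by exact_mod_cast hT
  have hSpos : (0 : ℝ) < S := by exact_mod_cast hS
  have hnm' : (n : ℝ) = r * m := by exact_mod_cast hnm
  by_cases hT4 : 4 ^ n ≤ T
  · have h1 : (4 : ℝ) ^ n ≤ T := by exact_mod_cast hT4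
    exact (pow_le_pow_left₀ (by linarith) (by linarith) n).trans h1
  push Not at hT4
  set H : ℕ := Nat.clog 2 T with hH
  have hTH : T ≤ 2 ^ H := Nat.le_pow_clog (by norm_num) T
  have hH2n : H ≤ 2 * n := by
    rw [hH]
    refine Nat.clog_le_of_le_pow ?_
    rw [pow_mul]
    exact hT4.le
  have hH2T : 2 ^ H ≤ 2 * T := by
    rcases Nat.lt_or_ge 1 T with h1 | h1
    · have h2 := Nat.pow_pred_clog_lt_self (b := 2) (by norm_num) h1
      rw [← hH] at h2
      have h3 : 0 < H := by rw [hH]; exact Nat.clog_pos (by norm_num) h1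
      obtain ⟨H', hH'⟩ := Nat.exists_eq_succ_of_ne_zero h3.ne'
      rw [hH', Nat.pred_succ] at h2
      rw [hH', Nat.succ_eq_add_one, pow_succ]
      omega
    · have h2 : T = 1 := le_antisymm h1 hT
      have h3 : H = 0 := by rw [hH, h2]; exact Nat.clog_one_right 2
      rw [h3, h2]; norm_num
  set w : ℕ := ⌈η * n⌉₊ with hw
  have hw1 : 1 ≤ w := Nat.one_le_iff_ne_zero.2 (Nat.ceil_pos.2 (by positivity)).ne'
  have hwle : (w : ℝ) ≤ η * n + 1 := (Nat.ceil_lt_add_one (by positivity)).le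
  have hwge : η * n ≤ w := Nat.le_ceil _
  have hwpos : (0 : ℝ) < w := by exact_mod_cast hw1
  have hmw : ((m / w : ℕ) : ℝ) ≤ K := by
    have h1 : ((m / w : ℕ) : ℝ) ≤ (m : ℝ) / w := Nat.cast_div_le
    refine h1.trans ?_
    rw [div_le_iff₀ hwpos]
    have h2 : (m : ℝ) = K * (η * n) := by
      rw [hK, hη, hnm']
      field_simp
    rw [h2]
    exact mul_le_mul_of_nonneg_left hwge hKpos.le
  have key := h w H hw1 hTH
  have key' : ((4 : ℝ) ^ (r - 1)) ^ m ≤
      2 ^ H * (4 ^ (r - 1)) ^ (3 * w) * (((H : ℝ) + 1) * (r * m + 1) * S) ^ (m / w) := by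
    exact_mod_cast key
  have hbase : (0 : ℝ) < ((H : ℝ) + 1) * (r * m + 1) * S := by positivity
  have hlog := Real.log_le_log (by positivity) key'
  rw [Real.log_mul (by positivity) (by positivity), Real.log_mul (by positivity) (by positivity),
    Real.log_pow, Real.log_pow, Real.log_pow, Real.log_pow, Real.log_pow, Real.log_pow] at hlog
  have hr2 : ((r - 1 : ℕ) : ℝ) = (r : ℝ) - 1 := by
    rw [Nat.cast_sub (by omega)]; simp
  rw [hr2] at hlog
  have hHlog : (H : ℝ) * Real.log 2 ≤ Real.log 2 + Real.log T := by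
    rw [← Real.log_pow, ← Real.log_mul (by norm_num) hTpos.ne']
    exact Real.log_le_log (by positivity) (by exact_mod_cast hH2T)
  have hblog : Real.log (((H : ℝ) + 1) * (r * m + 1) * S) ≤
      2 * Real.log (2 * n + 1) + δ * n * Real.log 2 := by
    have h1 : ((H : ℝ) + 1) * (r * m + 1) ≤ (2 * n + 1) ^ 2 := by
      rw [← hnm', pow_two]
      have h2 : (H : ℝ) ≤ 2 * n := by exact_mod_cast hH2n
      refine mul_le_mul (by linarith) (by linarith) (by positivity) (by positivity)
    have h2 : Real.log S ≤ δ * n * Real.log 2 := by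
      have h3 := Real.log_le_log hSpos hSδ
      rwa [Real.log_rpow (by norm_num)] at h3
    rw [Real.log_mul (by positivity) hSpos.ne']
    have h3 := Real.log_le_log (by positivity) h1
    rw [Real.log_pow] at h3
    push_cast at h3
    linarith
  have hb0 : 0 ≤ Real.log (((H : ℝ) + 1) * (r * m + 1) * S) := by
    apply Real.log_nonneg
    have h1 : (1 : ℝ) ≤ S := by exact_mod_cast hS
    have h2 : (1 : ℝ) ≤ (H : ℝ) + 1 := by linarith [Nat.cast_nonneg (α := ℝ) H]
    have h3 : (1 : ℝ) ≤ (r : ℝ) * m + 1 := by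
      have : (0 : ℝ) ≤ (r : ℝ) * m := by positivity
      linarith
    calc (1 : ℝ) = 1 * 1 * 1 := by ring
      _ ≤ _ := mul_le_mul (mul_le_mul h2 h3 (by norm_num) (by positivity)) h1 (by norm_num)
        (by positivity)
  have hlast : ((m / w : ℕ) : ℝ) * Real.log (((H : ℝ) + 1) * (r * m + 1) * S) ≤
      2 * K * Real.log (2 * n + 1) + L / 4 * n := by
    calc ((m / w : ℕ) : ℝ) * Real.log (((H : ℝ) + 1) * (r * m + 1) * S)
        ≤ K * (2 * Real.log (2 * n + 1) + δ * n * Real.log 2) :=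
          mul_le_mul hmw hblog hb0 hKpos.le
      _ = 2 * K * Real.log (2 * n + 1) + L / 4 * n := by
          rw [hδ]; field_simp
  have hwl : ((3 * w : ℕ) : ℝ) * (((r : ℝ) - 1) * Real.log 4) ≤
      L / 4 * n + 3 * r * Real.log 4 := by
    push_cast
    calc 3 * (w : ℝ) * (((r : ℝ) - 1) * Real.log 4) ≤ 3 * (η * n + 1) * (r * Real.log 4) := by
          refine mul_le_mul (by linarith) ?_ ?_ (by positivity)
          · exact mul_le_mul_of_nonneg_right (by linarith) hl4.le
          · exact mul_nonneg (by linarith) hl4.le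
      _ = L / 4 * n + 3 * r * Real.log 4 := by
          rw [hη]; field_simp; ring
  have hm4 : (m : ℝ) * Real.log 4 ≤ L / 4 * n := by
    calc (m : ℝ) * Real.log 4 ≤ m * (L / 4 * r) := mul_le_mul_of_nonneg_left hrL (by positivity)
      _ = L / 4 * n := by rw [hnm']; ring
  have hfin : (n : ℝ) * Real.log (4 - ε) ≤ Real.log T := by
    have e1 : Real.log (4 - ε) = Real.log 4 - L := by rw [hL]; ring
    have e2 : (m : ℝ) * (((r : ℝ) - 1) * Real.log 4) = n * Real.log 4 - m * Real.log 4 := by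
      rw [hnm']; ring
    rw [e2] at hlog
    rw [e1, mul_sub]
    linarith [hlog, hHlog, hlast, hwl, hm4, hev]
  rw [← Real.log_pow] at hfin
  exact (Real.log_le_log_iff (pow_pos (by linarith) n) hTpos).1 hfin

end Pool.Agent.H564R3.TS
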