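import Pool.Agent.H564R3.TS.Defs
import Pool.Agent.H564R3.TS.Cover

/-! Task H (helper25): partitions of a set of `r * s` elements into sets of `r` elements. -/

set_option autoImplicit false

namespace Pool.Agent.H564R3.TS

open Finset
open Pool.Agent.H564R3.PW (Instr runs exec syms)

/-- the number of partitions of a set of `r * s` elements into sets of `r` elements -/
def cr (r s : ℕ) : ℕ := ∏ j ∈ range s, (r * (j + 1) - 1).choose (r - 1)

theorem cr_eq (r s : ℕ) (hr : 1 ≤ r) :
    cr r s * (r.factorial ^ s * s.factorial) = (r * s).factorial := by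
  induction s with
  | zero => simp [cr]
  | succ s ih =>
    obtain ⟨q, rfl⟩ : ∃ q, r = q + 1 := ⟨r - 1, by omega⟩
    have h1 : cr (q + 1) (s + 1) = cr (q + 1) s * ((q + 1) * (s + 1) - 1).choose q := by
      rw [cr, prod_range_succ]
      rfl
    have h2 : (q + 1) * (s + 1) - 1 = (q + 1) * s + q := by
      rw [Nat.mul_succ]
      omega
    have h3 : ((q + 1) * s + q).choose q * q.factorial * ((q + 1) * s).factorial =
        ((q + 1) * s + q).factorial := by
      have := Nat.choose_mul_factorial_mul_factorial (n := (q + 1) * s + q) (k := q) (by omega)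
      rwa [Nat.add_sub_cancel] at this
    have h4 : ((q + 1) * (s + 1)).factorial =
        (q + 1) * (s + 1) * ((q + 1) * s + q).factorial := by
      have : (q + 1) * (s + 1) = (q + 1) * s + q + 1 := by ring
      rw [this, Nat.factorial_succ]
    rw [h1, h2, h4, ← h3, ← ih, pow_succ, Nat.factorial_succ q, Nat.factorial_succ s]
    ring

theorem H_choose_mul (a b c d : ℕ) : a.choose b * c.choose d ≤ (a + c).choose (b + d) := by
  rw [Nat.add_choose_eq]
  exact single_le_sum (f := fun ij : ℕ × ℕ => a.choose ij.1 * c.choose ij.2)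
    (fun _ _ => Nat.zero_le _) (show (b, d) ∈ antidiagonal (b + d) by simp)

theorem H_choose_pow (s x r : ℕ) : s.choose x ^ r ≤ (r * s).choose (r * x) := by
  induction r with
  | zero => simp
  | succ r ih =>
    rw [pow_succ, Nat.succ_mul, Nat.succ_mul]
    exact (Nat.mul_le_mul_right _ ih).trans (H_choose_mul _ _ _ _)

theorem cr_ineq (r m x s : ℕ) (hr : 1 ≤ r) (hx : 2 * x ≤ s) (hs : s ≤ m) :
    cr r x * cr r (s - x) * (4 ^ (r - 1)) ^ x ≤ (r * m + 1) * cr r s := by
  have h1 := cr_eq r s hr
  have h2 := cr_eq r x hr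
  have h3 := cr_eq r (s - x) hr
  have hxs : x ≤ s := by omega
  have h4 : (r * s).choose (r * x) * (r * x).factorial * (r * (s - x)).factorial =
      (r * s).factorial := by
    have := Nat.choose_mul_factorial_mul_factorial (n := r * s) (k := r * x)
      (Nat.mul_le_mul_left r hxs)
    rwa [← Nat.mul_sub] at this
  have h5 : s.choose x * x.factorial * (s - x).factorial = s.factorial :=
    Nat.choose_mul_factorial_mul_factorial hxs
  -- the main inequality
  have h6 : s.choose x * (4 ^ (r - 1)) ^ x ≤ (r * m + 1) * (r * s).choose (r * x) := by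
    have h7 : 4 ^ (r * x) ≤ (r * m + 1) * (r * s).choose (r * x) := by
      rcases Nat.eq_zero_or_pos (r * x) with h0 | h0
      · rw [h0, pow_zero, Nat.choose_zero_right, mul_one]
        omega
      · have h8 := Nat.four_pow_le_two_mul_self_mul_centralBinom (r * x) h0
        refine h8.trans (Nat.mul_le_mul ?_ ?_)
        · have : r * (2 * x) ≤ r * m := Nat.mul_le_mul_left r (hx.trans hs)
          have h9 : 2 * (r * x) = r * (2 * x) := by ring
          omega
        · rw [Nat.centralBinom_eq_two_mul_choose]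
          refine Nat.choose_le_choose _ ?_
          have h9 : 2 * (r * x) = r * (2 * x) := by ring
          rw [h9]
          exact Nat.mul_le_mul_left r hx
    have h8 : s.choose x ^ r ≤ (r * s).choose (r * x) := H_choose_pow s x r
    refine (Nat.pow_le_pow_iff_left (n := r) (by omega)).1 ?_
    obtain ⟨q, rfl⟩ : ∃ q, r = q + 1 := ⟨r - 1, by omega⟩
    have h9 : ((4 ^ (q + 1 - 1)) ^ x) ^ (q + 1) = (4 ^ ((q + 1) * x)) ^ q := by
      rw [← pow_mul, ← pow_mul, ← pow_mul, Nat.add_sub_cancel]
      congr 1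
      ring
    calc (s.choose x * (4 ^ (q + 1 - 1)) ^ x) ^ (q + 1)
        = s.choose x ^ (q + 1) * (4 ^ ((q + 1) * x)) ^ q := by rw [mul_pow, h9]
      _ ≤ ((q + 1) * s).choose ((q + 1) * x) *
          (((q + 1) * m + 1) * ((q + 1) * s).choose ((q + 1) * x)) ^ q :=
        Nat.mul_le_mul h8 (Nat.pow_le_pow_left h7 q)
      _ ≤ (((q + 1) * m + 1) * ((q + 1) * s).choose ((q + 1) * x)) *
          (((q + 1) * m + 1) * ((q + 1) * s).choose ((q + 1) * x)) ^ q :=
        Nat.mul_le_mul_right _ (Nat.le_mul_of_pos_left _ (by omega))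
      _ = (((q + 1) * m + 1) * ((q + 1) * s).choose ((q + 1) * x)) ^ (q + 1) := by
        rw [pow_succ]; ring
  -- conclusion
  have hfac : r.factorial ^ s = r.factorial ^ x * r.factorial ^ (s - x) := by
    rw [← pow_add, Nat.add_sub_cancel' hxs]
  set F := r.factorial ^ s * s.factorial with hF
  have hFpos : 0 < F := Nat.mul_pos (Nat.pow_pos (Nat.factorial_pos r)) (Nat.factorial_pos s)
  have h10 : cr r x * cr r (s - x) * F = s.choose x * ((r * x).factorial * (r * (s - x)).factorial) := by
    rw [hF, hfac, ← h5, ← h2, ← h3]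
    ring
  refine Nat.le_of_mul_le_mul_right ?_ hFpos
  calc cr r x * cr r (s - x) * (4 ^ (r - 1)) ^ x * F
      = (cr r x * cr r (s - x) * F) * (4 ^ (r - 1)) ^ x := by ring
    _ = (s.choose x * (4 ^ (r - 1)) ^ x) * ((r * x).factorial * (r * (s - x)).factorial) := by
      rw [h10]; ring
    _ ≤ ((r * m + 1) * (r * s).choose (r * x)) *
        ((r * x).factorial * (r * (s - x)).factorial) := Nat.mul_le_mul_right _ h6
    _ = (r * m + 1) * (r * s).factorial := by rw [← h4]; ring
    _ = (r * m + 1) * cr r s * F := by rw [← h1]; ring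

theorem set_count {n r : ℕ} (hr : 1 ≤ r) (P : Finset (Fin n)) (s : ℕ)
    (G : Finset (Finset {A : Finset (Fin n) // A.card = r})) (hP : P.card = r * s)
    (hG : ∀ B ∈ G, Exact (fun x : {A : Finset (Fin n) // A.card = r} => x.1) r P B) :
    G.card ≤ cr r s := by
  refine cover_upper (fun x : {A : Finset (Fin n) // A.card = r} => x.1) r hr
    (fun j => (r * (j + 1) - 1).choose (r - 1)) ?_ P s G hP hG
  intro P s hP
  have hpos : 0 < P.card := by
    rw [hP]
    exact Nat.mul_pos hr (Nat.succ_pos s)
  obtain ⟨e, he⟩ := card_pos.1 hpos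
  refine ⟨e, he, fun Y hY => ?_⟩
  have h1 : (powersetCard (r - 1) (P.erase e)).card = (r * (s + 1) - 1).choose (r - 1) := by
    rw [card_powersetCard, card_erase_of_mem he, hP]
  rw [← h1]
  refine card_le_card_of_injOn (fun x => x.1.erase e) ?_ ?_
  · intro x hx
    obtain ⟨h2, h3, h4⟩ := hY x hx
    refine mem_coe.2 (mem_powersetCard.2 ⟨erase_subset_erase e h3, ?_⟩)
    rw [card_erase_of_mem h4, x.2]
  · intro x hx y hy hxy
    have hx4 := (hY x hx).2.2
    have hy4 := (hY y hy).2.2
    refine Subtype.ext ?_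
    rw [← insert_erase hx4, ← insert_erase hy4]
    exact congrArg (insert e) hxy

theorem set_lower {n r : ℕ} (hr : 1 ≤ r) (P : Finset (Fin n)) (s : ℕ) (hP : P.card = r * s) :
    ∃ G : Finset (Finset {A : Finset (Fin n) // A.card = r}),
      (∀ B ∈ G, Exact (fun x : {A : Finset (Fin n) // A.card = r} => x.1) r P B) ∧
      cr r s ≤ G.card := by
  refine cover_lower (fun x : {A : Finset (Fin n) // A.card = r} => x.1) r hr
    (fun j => (r * (j + 1) - 1).choose (r - 1)) ?_ P s hP
  intro P s hP
  have hpos : 0 < P.card := by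
    rw [hP]
    exact Nat.mul_pos hr (Nat.succ_pos s)
  obtain ⟨e, he⟩ := card_pos.1 hpos
  refine ⟨e, he, univ.filter (fun x => x.1 ⊆ P ∧ e ∈ x.1), ?_, ?_⟩
  · intro x hx
    obtain ⟨h2, h3⟩ := (mem_filter.1 hx).2
    exact ⟨x.2, h2, h3⟩
  · have h1 : (powersetCard (r - 1) (P.erase e)).card = (r * (s + 1) - 1).choose (r - 1) := by
      rw [card_powersetCard, card_erase_of_mem he, hP]
    rw [← h1]
    refine card_le_card_of_surjOn (fun x => x.1.erase e) ?_
    intro D hD
    obtain ⟨h2, h3⟩ := mem_powersetCard.1 (mem_coe.1 hD)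
    have heD : e ∉ D := fun h => notMem_erase e P (h2 h)
    have h4 : (insert e D).card = r := by
      rw [card_insert_of_notMem heD, h3]
      omega
    refine ⟨⟨insert e D, h4⟩, ?_, ?_⟩
    · refine mem_coe.2 (mem_filter.2 ⟨mem_univ _, ?_, mem_insert_self e D⟩)
      exact insert_subset he (h2.trans (erase_subset e P))
    · exact erase_insert heD

end Pool.Agent.H564R3.TS
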