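import Pool.Agent.H564R3.TS.Defs
import Pool.Agent.H564R3.PW.Nat

/-! Task B3 (helper267): set cover without weights. -/

set_option autoImplicit false

namespace Pool.Agent.H564R3.TS

open Finset
open Pool.Agent.H564R3.PW (Instr runs exec syms B_exec_append B_syms_append)
open scoped NNReal

/-- the input: the members of `F` have weight `1`, the others are not available -/
noncomputable def B3_in {X : Type} [DecidableEq X] (F : Finset X) : X → Tropical (WithTop ℝ≥0) :=
  fun x => if x ∈ F then Tropical.trop ((1 : ℝ≥0) : WithTop ℝ≥0) else 0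

theorem B3_sound1 {X ρ : Type} [Fintype X] [DecidableEq X] [DecidableEq ρ]
    (p : List (Instr (Tropical (WithTop ℝ≥0)) X ρ)) : ∀ i : ρ, ∀ u ∈ syms p i, ∃ c : ℝ≥0,
      ∀ F : Finset X, (∀ x, u x ≠ 0 → x ∈ F) →
        Tropical.untrop (exec (B3_in F) p i) ≤ ((((∑ x, u x : ℕ) : ℝ≥0) + c : ℝ≥0) : WithTop ℝ≥0) := by
  induction p using List.reverseRecOn with
  | nil =>
    intro i u hu
    simp [syms] at hu
  | append_singleton p I ih =>
    intro i u hu
    rw [B_syms_append] at hu
    simp only [B_exec_append]
    cases I with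
    | load j x =>
      simp only [PW.Instr.run, PW.Instr.sym] at hu ⊢
      by_cases hij : i = j
      · subst hij
        simp only [Function.update_self] at hu ⊢
        rw [Set.mem_singleton_iff] at hu
        subst hu
        refine ⟨0, fun F hF => ?_⟩
        have hx : x ∈ F := hF x (by simp)
        unfold B3_in
        rw [if_pos hx, Tropical.untrop_trop]
        have h1 : ∑ y, (Pi.single x 1 : X → ℕ) y = 1 := by
          rw [Finset.sum_eq_single x]
          · simp
          · intro b _ hb
            rw [Pi.single_apply, if_neg hb]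
          · intro h; exact absurd (Finset.mem_univ x) h
        rw [h1]
        simp
      · simp only [Function.update_of_ne hij] at hu ⊢
        exact ih i u hu
    | const j c =>
      simp only [PW.Instr.run, PW.Instr.sym] at hu ⊢
      by_cases hij : i = j
      · subst hij
        simp only [Function.update_self] at hu ⊢
        obtain ⟨rfl, hc⟩ := hu
        have hc' : Tropical.untrop c ≠ ⊤ := by
          intro h
          exact hc (Tropical.untrop_injective h)
        obtain ⟨a, ha⟩ := WithTop.ne_top_iff_exists.1 hc'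
        refine ⟨a, fun F _ => ?_⟩
        rw [← ha]
        simp only [Pi.zero_apply, Finset.sum_const_zero, Nat.cast_zero, zero_add]
        exact le_rfl
      · simp only [Function.update_of_ne hij] at hu ⊢
        exact ih i u hu
    | add j a b =>
      simp only [PW.Instr.run, PW.Instr.sym] at hu ⊢
      by_cases hij : i = j
      · subst hij
        simp only [Function.update_self] at hu ⊢
        rcases hu with hu | hu
        · obtain ⟨c, hc⟩ := ih a u hu
          refine ⟨c, fun F hF => ?_⟩
          rw [Tropical.untrop_add]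
          exact (min_le_left _ _).trans (hc F hF)
        · obtain ⟨c, hc⟩ := ih b u hu
          refine ⟨c, fun F hF => ?_⟩
          rw [Tropical.untrop_add]
          exact (min_le_right _ _).trans (hc F hF)
      · simp only [Function.update_of_ne hij] at hu ⊢
        exact ih i u hu
    | mul j a b =>
      simp only [PW.Instr.run, PW.Instr.sym] at hu ⊢
      by_cases hij : i = j
      · subst hij
        simp only [Function.update_self] at hu ⊢
        obtain ⟨u1, h1, u2, h2, rfl⟩ := hu
        obtain ⟨c1, hc1⟩ := ih a u1 h1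
        obtain ⟨c2, hc2⟩ := ih b u2 h2
        refine ⟨c1 + c2, fun F hF => ?_⟩
        rw [Tropical.untrop_mul]
        have hF1 : ∀ x, u1 x ≠ 0 → x ∈ F := fun x hx => hF x (by simp [hx])
        have hF2 : ∀ x, u2 x ≠ 0 → x ∈ F := fun x hx => hF x (by simp [hx])
        refine (add_le_add (hc1 F hF1) (hc2 F hF2)).trans (le_of_eq ?_)
        rw [← WithTop.coe_add]
        congr 1
        simp only [Pi.add_apply, Finset.sum_add_distrib, Nat.cast_add]
        ring
      · simp only [Function.update_of_ne hij] at hu ⊢
        exact ih i u hu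

theorem B3_sound2 {X ρ : Type} [Fintype X] [DecidableEq X] [DecidableEq ρ]
    (p : List (Instr (Tropical (WithTop ℝ≥0)) X ρ)) (F : Finset X) : ∀ i : ρ,
      Tropical.untrop (exec (B3_in F) p i) ≠ ⊤ → ∃ u ∈ syms p i, (∀ x, u x ≠ 0 → x ∈ F) ∧
        (((∑ x, u x : ℕ) : ℝ≥0) : WithTop ℝ≥0) ≤ Tropical.untrop (exec (B3_in F) p i) := by
  induction p using List.reverseRecOn with
  | nil =>
    intro i h
    exact absurd rfl h
  | append_singleton p I ih =>
    intro i h
    rw [B_syms_append]
    rw [B_exec_append] at h ⊢
    cases I with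
    | load j x =>
      simp only [PW.Instr.run, PW.Instr.sym] at h ⊢
      by_cases hij : i = j
      · subst hij
        simp only [Function.update_self] at h ⊢
        have hx : x ∈ F := by
          by_contra hc
          apply h
          unfold B3_in
          rw [if_neg hc]
          rfl
        refine ⟨_, rfl, fun y hy => ?_, ?_⟩
        · by_contra hc
          apply hy
          rw [Pi.single_apply, if_neg]
          rintro rfl
          exact hc hx
        · unfold B3_in
          rw [if_pos hx, Tropical.untrop_trop]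
          have h1 : ∑ y, (Pi.single x 1 : X → ℕ) y = 1 := by
            rw [Finset.sum_eq_single x]
            · simp
            · intro b _ hb
              rw [Pi.single_apply, if_neg hb]
            · intro h; exact absurd (Finset.mem_univ x) h
          rw [h1]
          simp
      · simp only [Function.update_of_ne hij] at h ⊢
        exact ih i h
    | const j c =>
      simp only [PW.Instr.run, PW.Instr.sym] at h ⊢
      by_cases hij : i = j
      · subst hij
        simp only [Function.update_self] at h ⊢
        refine ⟨0, ⟨rfl, ?_⟩, ?_, ?_⟩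
        · rintro rfl
          exact h rfl
        · intro x hx; exact absurd rfl hx
        · simp
      · simp only [Function.update_of_ne hij] at h ⊢
        exact ih i h
    | add j a b =>
      simp only [PW.Instr.run, PW.Instr.sym] at h ⊢
      by_cases hij : i = j
      · subst hij
        simp only [Function.update_self] at h ⊢
        rw [Tropical.untrop_add] at h ⊢
        rcases min_choice (Tropical.untrop (exec (B3_in F) p a))
          (Tropical.untrop (exec (B3_in F) p b)) with hm | hm
        · rw [hm] at h ⊢
          obtain ⟨u, hu, h'⟩ := ih a h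
          exact ⟨u, Or.inl hu, h'⟩
        · rw [hm] at h ⊢
          obtain ⟨u, hu, h'⟩ := ih b h
          exact ⟨u, Or.inr hu, h'⟩
      · simp only [Function.update_of_ne hij] at h ⊢
        exact ih i h
    | mul j a b =>
      simp only [PW.Instr.run, PW.Instr.sym] at h ⊢
      by_cases hij : i = j
      · subst hij
        simp only [Function.update_self] at h ⊢
        rw [Tropical.untrop_mul] at h ⊢
        rw [WithTop.add_ne_top] at h
        obtain ⟨u1, h1, h1s, h1'⟩ := ih a h.1
        obtain ⟨u2, h2, h2s, h2'⟩ := ih b h.2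
        refine ⟨u1 + u2, ⟨u1, h1, u2, h2, rfl⟩, fun x hx => ?_, ?_⟩
        · by_cases h3 : u1 x = 0
          · refine h2s x fun h4 => hx ?_
            rw [Pi.add_apply, h3, h4]
          · exact h1s x h3
        · refine le_trans (le_of_eq ?_) (add_le_add h1' h2')
          rw [← WithTop.coe_add]
          congr 1
          simp only [Pi.add_apply, Finset.sum_add_distrib, Nat.cast_add]
      · simp only [Function.update_of_ne hij] at h ⊢
        exact ih i h

theorem good_unw {X E ρ : Type} [Fintype X] [DecidableEq X] [Fintype E] [DecidableEq E]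
    [DecidableEq ρ] (sup : X → Finset E) (r m : ℕ) (hr : 1 ≤ r) (hm : Fintype.card E = r * m)
    (p : List (Instr (Tropical (WithTop ℝ≥0)) X ρ)) (o : ρ)
    (h1 : ∀ F G : Finset X, G ⊆ F → (∀ e, ∃ x ∈ G, e ∈ sup x) →
      Tropical.untrop (exec (fun x => if x ∈ F then Tropical.trop ((1 : ℝ≥0) : WithTop ℝ≥0) else 0)
        p o) ≤ ((G.card : ℝ≥0) : WithTop ℝ≥0))
    (h2 : ∀ F : Finset X,
      Tropical.untrop (exec (fun x => if x ∈ F then Tropical.trop ((1 : ℝ≥0) : WithTop ℝ≥0) else 0)
        p o) ≠ ⊤ → ∃ G ⊆ F, (∀ e, ∃ x ∈ G, e ∈ sup x) ∧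
      ((G.card : ℝ≥0) : WithTop ℝ≥0) ≤
        Tropical.untrop (exec (fun x => if x ∈ F then Tropical.trop ((1 : ℝ≥0) : WithTop ℝ≥0)
          else 0) p o)) :
    (∀ A : Finset X, Exact sup r univ A → ind A ∈ syms p o) ∧ Cov sup (syms p o) := by
  have h1' : ∀ F G : Finset X, G ⊆ F → (∀ e, ∃ x ∈ G, e ∈ sup x) →
      Tropical.untrop (exec (B3_in F) p o) ≤ ((G.card : ℝ≥0) : WithTop ℝ≥0) := h1
  have h2' : ∀ F : Finset X, Tropical.untrop (exec (B3_in F) p o) ≠ ⊤ →
      ∃ G ⊆ F, (∀ e, ∃ x ∈ G, e ∈ sup x) := fun F hF => by
    obtain ⟨G, h3, h4, -⟩ := h2 F hF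
    exact ⟨G, h3, h4⟩
  have hcov : Cov sup (syms p o) := by
    intro u hu e
    obtain ⟨c, hc⟩ := B3_sound1 p o u hu
    have h3 := hc (univ.filter fun x => u x ≠ 0) (fun x hx => by simp [hx])
    obtain ⟨G, hG, hGe⟩ := h2' _ (ne_top_of_le_ne_top WithTop.coe_ne_top h3)
    obtain ⟨x, hx, hxe⟩ := hGe e
    exact ⟨x, (Finset.mem_filter.1 (hG hx)).2, hxe⟩
  refine ⟨fun A hA => ?_, hcov⟩
  have h3 := h1' A A (Finset.Subset.refl A) (fun e => hA.cover e (Finset.mem_univ e))
  obtain ⟨u, hu, hus, hule⟩ := B3_sound2 p A o (ne_top_of_le_ne_top WithTop.coe_ne_top h3)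
  have h4 : ∑ x, u x ≤ A.card := by
    have h5 := hule.trans h3
    rw [WithTop.coe_le_coe] at h5
    exact_mod_cast h5
  have hge : ∀ x ∈ A, 1 ≤ u x := by
    intro x hx
    have hne : (sup x).Nonempty := by
      rw [← Finset.card_pos, hA.card x hx]
      exact hr
    obtain ⟨e, he⟩ := hne
    obtain ⟨y, hy, hye⟩ := hcov u hu e
    have hyA := hus y hy
    have hxy : y = x := by
      by_contra hxy
      exact (Finset.disjoint_left.1 (hA.disj y hyA x hx hxy) hye) he
    rw [← hxy]
    exact Nat.one_le_iff_ne_zero.2 hy
  have h6 : ∑ x, ind A x = A.card := by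
    unfold ind
    rw [Finset.sum_ite_mem, Finset.univ_inter, Finset.sum_const, smul_eq_mul, mul_one]
  have h7 : ∀ x ∈ (univ : Finset X), ind A x ≤ u x := by
    intro x _
    unfold ind
    split_ifs with hx
    · exact hge x hx
    · exact Nat.zero_le _
  have h8 : ∑ x, ind A x = ∑ x, u x :=
    le_antisymm (Finset.sum_le_sum h7) (by rw [h6]; exact h4)
  have h9 := (Finset.sum_eq_sum_iff_of_le h7).1 h8
  have h10 : ind A = u := funext fun x => h9 x (Finset.mem_univ x)
  rw [h10]
  exact hu

end Pool.Agent.H564R3.TS
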